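import Mathlib

/-!
# Definitions: abelian squares, Parikh vectors and the number of inequivalent abelian squares
-/

set_option autoImplicit false

namespace Pool.Agent.Lib.MP_72cd34_co

/-- An abelian square: a nonempty word of the form `u ++ v` in which `v` is a rearrangement
of `u`. -/
def IsAbelianSquare {α : Type*} (s : List α) : Prop :=
  s ≠ [] ∧ ∃ u v : List α, s = u ++ v ∧ u.Perm v

/-- The Parikh vector of a word: the number of occurrences of each letter. -/
def parikh {α : Type*} [DecidableEq α] (s : List α) : α → ℕ := fun a => s.count a

/-- `N(w)`: the number of distinct Parikh vectors of the abelian squares that are factors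
(blocks of consecutive letters) of `w`. -/
noncomputable def numSquareClasses {α : Type*} [DecidableEq α] (w : List α) : ℕ :=
  Set.ncard {p : α → ℕ | ∃ s : List α, s <:+: w ∧ IsAbelianSquare s ∧ parikh s = p}

/-- The set counted by `numSquareClasses` is finite, so `Set.ncard` is its true cardinality. -/
lemma finite_classes {α : Type*} [DecidableEq α] (w : List α) :
    {p : α → ℕ | ∃ s : List α, s <:+: w ∧ IsAbelianSquare s ∧ parikh s = p}.Finite := by
  apply Set.Finite.subset (w.sublists.toFinset.finite_toSet.image parikh)
  rintro p ⟨s, hs, _, rfl⟩
  exact ⟨s, by simpa using hs.sublist, rfl⟩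

end Pool.Agent.Lib.MP_72cd34_co
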