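import Pool.Agent.Lib.MP_72cd34_co.Defs

/-!
# Inequivalent abelian squares in a word: the bound `C * n ^ (3/2)` is false

For a word `w` let `N(w)` be the number of distinct Parikh vectors of abelian squares that occur
as factors of `w`.  We show that for every real `α < log 27 / log (27/4) = 1.7259…` and every
constant `C` there is a *binary* word `w` with `N(w) > C * |w| ^ α`.  The case `α = 3/2` refutes
the conjecture `N(w) ≤ C * n ^ (3/2)`.

Outline.  The Parikh vectors of the initial segments of a word form a path, and `N(w)` is the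
number of distinct common differences `v > 0` of three-term arithmetic progressions in that path
(`card_le_classes`).

* Upper level (`base`).  In `{0,1,2}^(3t)` the progressions `2·1_S, 1_{S ∪ T}, 2·1_T` (with `S, T`
  disjoint `t`-sets) have pairwise distinct differences `1_T - 1_S`, and there are far more of them
  than points.  A random linear hash modulo `q` (with `q` about six times the number of points)
  places these points at positions `0, …, 3q - 1` of an interval so that at least half of the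
  progressions survive as progressions of positions.
* Lifting (`step`).  Given a binary word `w`, put `3q` copies of `w` one after the other, with
  binary separators whose letter counts are random linear images of the increments of the upper
  level function.  Every difference `v` of `w` combines with every surviving upper level
  difference `d` to a difference of the new word, and for a good choice of the random linear map
  at least half of the resulting differences are distinct.
* Iterating (`iterate`) gives binary words `w_s` with `|w_s| ≤ c (2L)^s` and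
  `N(w_s) ≥ (M^s - 1) / 2`, where `M > (2L)^α` if `t` is large (`exists_param`).
-/

set_option autoImplicit false

namespace Pool.Agent.Lib.MP_72cd34_co

open Finset

/-- Letter counts of a binary word as an integer vector. -/
def cvec (p : List Bool) : ℤ × ℤ := ((p.count true : ℤ), (p.count false : ℤ))

lemma cvec_append (p q : List Bool) : cvec (p ++ q) = cvec p + cvec q := by
  simp [cvec, List.count_append]

lemma cvec_nil : cvec [] = 0 := by simp [cvec]

lemma cvec_length (p : List Bool) : (cvec p).1 + (cvec p).2 = p.length := by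
  simp only [cvec]
  rw [← Nat.cast_add]
  congr 1
  exact List.count_true_add_count_false p

/-- Common differences of three-term progressions of prefix vectors. -/
def V (w : List Bool) : Set (ℤ × ℤ) :=
  {v | ∃ p q r : List Bool, p <+: w ∧ q <+: w ∧ r <+: w ∧
    cvec q - cvec p = v ∧ cvec r - cvec q = v}

/-- key: from prefixes p, q=p++s, r = q++t with cvec s = cvec t = v ≠ 0. -/
lemma mem_classes_aux (w p s t : List Bool) (h : p ++ s ++ t <+: w) (hst : cvec s = cvec t)
    (hne : s ≠ []) :
    ∃ f : Bool → ℕ, (∃ s : List Bool, s <:+: w ∧ IsAbelianSquare s ∧ parikh s = f) ∧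
      (((f true : ℤ) / 2), ((f false : ℤ) / 2)) = cvec s := by
  refine ⟨parikh (s ++ t), ⟨s ++ t, ?_, ?_, rfl⟩, ?_⟩
  · obtain ⟨x, hx⟩ := h
    exact ⟨p, x, by simpa using hx⟩
  · refine ⟨by simp [hne], s, t, rfl, ?_⟩
    rw [List.perm_iff_count]
    intro a
    have h1 := congrArg Prod.fst hst
    have h2 := congrArg Prod.snd hst
    simp only [cvec] at h1 h2
    cases a
    · exact_mod_cast h2
    · exact_mod_cast h1
  · have h1 := congrArg Prod.fst hst
    have h2 := congrArg Prod.snd hst
    simp only [cvec] at h1 h2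
    simp only [parikh, cvec, List.count_append]
    push_cast
    rw [← h1, ← h2]
    ext
    · simp only; omega
    · simp only; omega

lemma card_le_classes (w : List Bool) (F : Finset (ℤ × ℤ)) (hF : ∀ v ∈ F, v ∈ V w) :
    F.card ≤ 2 * numSquareClasses w + 1 := by
  classical
  have hfin := finite_classes w
  set S := hfin.toFinset with hS
  have hN : numSquareClasses w = S.card := by
    rw [numSquareClasses, Set.ncard_eq_toFinset_card _ hfin]
  let g : (Bool → ℕ) → ℤ × ℤ := fun f => (((f true : ℤ) / 2), ((f false : ℤ) / 2))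
  have hsub : F ⊆ insert 0 (S.image g ∪ S.image (fun f => - g f)) := by
    intro v hv
    obtain ⟨p, q, r, hp, hq, hr, h1, h2⟩ := hF v hv
    rw [Finset.mem_insert, Finset.mem_union]
    by_cases hv0 : v = 0
    · left; exact hv0
    right
    -- lengths
    have l1 : (q.length : ℤ) - p.length = v.1 + v.2 := by
      rw [← cvec_length, ← cvec_length, ← h1]; simp only [Prod.fst_sub, Prod.snd_sub]; ring
    have l2 : (r.length : ℤ) - q.length = v.1 + v.2 := by
      rw [← cvec_length, ← cvec_length, ← h2]; simp only [Prod.fst_sub, Prod.snd_sub]; ring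
    rcases le_total (0 : ℤ) (v.1 + v.2) with hpos | hneg
    · left
      have hpq : p <+: q := List.prefix_of_prefix_length_le hp hq (by omega)
      have hqr : q <+: r := List.prefix_of_prefix_length_le hq hr (by omega)
      obtain ⟨s, rfl⟩ := hpq
      obtain ⟨t, rfl⟩ := hqr
      have hs : cvec s = v := by rw [← h1, cvec_append]; abel
      have ht : cvec t = v := by rw [← h2, cvec_append (p ++ s) t]; abel
      have hne : s ≠ [] := by
        rintro rfl
        apply hv0; rw [← hs, cvec_nil]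
      obtain ⟨f, hf, hfv⟩ := mem_classes_aux w p s t hr (hs.trans ht.symm) hne
      rw [Finset.mem_image]
      exact ⟨f, by rw [hS, Set.Finite.mem_toFinset]; exact hf, by rw [← hs]; exact hfv⟩
    · right
      have hqp : q <+: p := List.prefix_of_prefix_length_le hq hp (by omega)
      have hrq : r <+: q := List.prefix_of_prefix_length_le hr hq (by omega)
      obtain ⟨s, rfl⟩ := hrq
      obtain ⟨t, rfl⟩ := hqp
      have hs : cvec s = -v := by rw [← h2, cvec_append]; abel
      have ht : cvec t = -v := by rw [← h1, cvec_append (r ++ s) t]; abel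
      have hne : s ≠ [] := by
        rintro rfl
        apply hv0
        have : -v = 0 := by rw [← hs, cvec_nil]
        simpa using this
      obtain ⟨f, hf, hfv⟩ := mem_classes_aux w r s t hp (hs.trans ht.symm) hne
      rw [Finset.mem_image]
      refine ⟨f, by rw [hS, Set.Finite.mem_toFinset]; exact hf, ?_⟩
      have : g f = -v := by rw [← hs]; exact hfv
      rw [this, neg_neg]
  calc F.card ≤ (insert 0 (S.image g ∪ S.image (fun f => - g f))).card := Finset.card_le_card hsub
    _ ≤ (S.image g ∪ S.image (fun f => - g f)).card + 1 := Finset.card_insert_le _ _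
    _ ≤ (S.image g).card + (S.image (fun f => - g f)).card + 1 := by
        gcongr; exact Finset.card_union_le _ _
    _ ≤ S.card + S.card + 1 := by
        gcongr
        · exact Finset.card_image_le
        · exact Finset.card_image_le
    _ = 2 * numSquareClasses w + 1 := by rw [hN]; ring


lemma card_sol_mul_le {ι F R : Type*} [Fintype ι] [DecidableEq ι] [Fintype F] [DecidableEq F]
    [CommRing R] [DecidableEq R] (c : ι → R) (e : F → R) (i0 : ι)
    (hinj : Function.Injective fun t => c i0 * e t) (s : R) :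
    (univ.filter (fun p : ι → F => ∑ i, c i * e (p i) = s)).card * Fintype.card F
      ≤ Fintype.card (ι → F) := by
  classical
  have key : ((univ.filter (fun p : ι → F => ∑ i, c i * e (p i) = s)) ×ˢ (univ : Finset F)).card
      ≤ (univ : Finset (ι → F)).card := by
    apply Finset.card_le_card_of_injOn (fun x => Function.update x.1 i0 x.2)
    · intro x hx; simp
    · rintro ⟨p, t⟩ hp ⟨p', t'⟩ hp' h
      simp only [coe_product, coe_filter, mem_univ, true_and, coe_univ, Set.mem_prod,
        Set.mem_ofPred_eq, Set.mem_univ, and_true] at hp hp'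
      simp only at h
      have ht : t = t' := by
        have := congrFun h i0
        simpa using this
      have hoff : ∀ i, i ≠ i0 → p i = p' i := by
        intro i hi
        have := congrFun h i
        simpa [Function.update_of_ne hi] using this
      have h1 := Finset.add_sum_erase univ (fun i => c i * e (p i)) (mem_univ i0)
      have h2 := Finset.add_sum_erase univ (fun i => c i * e (p' i)) (mem_univ i0)
      have h3 : ∑ i ∈ univ.erase i0, c i * e (p i) = ∑ i ∈ univ.erase i0, c i * e (p' i) := by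
        apply Finset.sum_congr rfl
        intro i hi
        rw [hoff i (Finset.ne_of_mem_erase hi)]
      have h4 : c i0 * e (p i0) = c i0 * e (p' i0) := by
        have : c i0 * e (p i0) + ∑ i ∈ univ.erase i0, c i * e (p' i)
            = c i0 * e (p' i0) + ∑ i ∈ univ.erase i0, c i * e (p' i) := by
          calc c i0 * e (p i0) + ∑ i ∈ univ.erase i0, c i * e (p' i)
              = c i0 * e (p i0) + ∑ i ∈ univ.erase i0, c i * e (p i) := by rw [h3]
            _ = s := by rw [h1, hp]
            _ = c i0 * e (p' i0) + ∑ i ∈ univ.erase i0, c i * e (p' i) := by rw [h2, hp']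
        exact add_right_cancel this
      have h5 : p i0 = p' i0 := hinj h4
      have h6 : p = p' := by
        funext i
        by_cases hi : i = i0
        · rw [hi, h5]
        · exact hoff i hi
      rw [h6, ht]
  simpa [Finset.card_product] using key

lemma exists_few_bad {Ω X : Type*} [Fintype Ω] [Nonempty Ω] (A : Finset X)
    (B : Ω → X → Prop) [∀ ω, DecidablePred (B ω)] [∀ x, DecidablePred fun ω => B ω x]
    (h : ∀ x ∈ A, 2 * (univ.filter (fun ω => B ω x)).card ≤ Fintype.card Ω) :
    ∃ ω, 2 * (A.filter (B ω)).card ≤ A.card := by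
  by_contra hcon
  push Not at hcon
  have h1 : ∑ ω : Ω, (A.filter (B ω)).card = ∑ x ∈ A, (univ.filter (fun ω => B ω x)).card := by
    simp only [Finset.card_filter]
    rw [Finset.sum_comm]
  have h2 : 2 * ∑ x ∈ A, (univ.filter (fun ω => B ω x)).card ≤ A.card * Fintype.card Ω := by
    rw [Finset.mul_sum]
    calc ∑ x ∈ A, 2 * (univ.filter (fun ω => B ω x)).card ≤ ∑ x ∈ A, Fintype.card Ω :=
          Finset.sum_le_sum h
      _ = A.card * Fintype.card Ω := by simp
  have h3 : Fintype.card Ω * A.card < 2 * ∑ ω : Ω, (A.filter (B ω)).card := by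
    rw [Finset.mul_sum]
    calc Fintype.card Ω * A.card = ∑ ω : Ω, A.card := by simp
      _ < ∑ ω : Ω, 2 * (A.filter (B ω)).card := by
          apply Finset.sum_lt_sum_of_nonempty univ_nonempty
          intro ω _
          exact hcon ω
  rw [h1] at h3
  rw [mul_comm] at h3
  exact absurd (lt_of_lt_of_le h3 h2) (lt_irrefl _)

lemma exists_large_image {Ω X Y : Type*} [Fintype Ω] [Nonempty Ω] [DecidableEq X] [DecidableEq Y]
    (A : Finset X) (E : Ω → X → Y)
    (h : ∀ x ∈ A, ∀ x' ∈ A, x ≠ x' →
      (univ.filter (fun ω => E ω x = E ω x')).card * (2 * A.card) ≤ Fintype.card Ω) :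
    ∃ ω, A.card ≤ 2 * (A.image (E ω)).card := by
  classical
  obtain ⟨ω, hω⟩ := exists_few_bad A (fun ω x => ∃ x' ∈ A, x ≠ x' ∧ E ω x = E ω x') (by
    intro x hx
    have hA : 0 < A.card := Finset.card_pos.mpr ⟨x, hx⟩
    have hsub : univ.filter (fun ω => ∃ x' ∈ A, x ≠ x' ∧ E ω x = E ω x')
        ⊆ (A.erase x).biUnion (fun x' => univ.filter (fun ω => E ω x = E ω x')) := by
      intro ω hω
      simp only [mem_filter, mem_univ, true_and] at hω
      obtain ⟨x', hx', hne, he⟩ := hω
      simp only [mem_biUnion, mem_filter, mem_univ, true_and]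
      exact ⟨x', Finset.mem_erase.mpr ⟨hne.symm, hx'⟩, he⟩
    have h1 : (univ.filter (fun ω => ∃ x' ∈ A, x ≠ x' ∧ E ω x = E ω x')).card
        ≤ ∑ x' ∈ A.erase x, (univ.filter (fun ω => E ω x = E ω x')).card :=
      (Finset.card_le_card hsub).trans Finset.card_biUnion_le
    have h2 : (∑ x' ∈ A.erase x, (univ.filter (fun ω => E ω x = E ω x')).card) * (2 * A.card)
        ≤ A.card * Fintype.card Ω := by
      rw [Finset.sum_mul]
      calc ∑ x' ∈ A.erase x, (univ.filter (fun ω => E ω x = E ω x')).card * (2 * A.card)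
          ≤ ∑ x' ∈ A.erase x, Fintype.card Ω := by
            apply Finset.sum_le_sum
            intro x' hx'
            exact h x hx x' (Finset.mem_of_mem_erase hx') (Finset.ne_of_mem_erase hx').symm
        _ = (A.erase x).card * Fintype.card Ω := by simp
        _ ≤ A.card * Fintype.card Ω := Nat.mul_le_mul_right _ (Finset.card_le_card (Finset.erase_subset _ _))
    have h3 : (univ.filter (fun ω => ∃ x' ∈ A, x ≠ x' ∧ E ω x = E ω x')).card * (2 * A.card)
        ≤ A.card * Fintype.card Ω := (Nat.mul_le_mul_right _ h1).trans h2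
    have h4 : A.card * (2 * (univ.filter (fun ω => ∃ x' ∈ A, x ≠ x' ∧ E ω x = E ω x')).card)
        ≤ A.card * Fintype.card Ω := by
      calc _ = (univ.filter (fun ω => ∃ x' ∈ A, x ≠ x' ∧ E ω x = E ω x')).card * (2 * A.card) := by ring
        _ ≤ _ := h3
    exact Nat.le_of_mul_le_mul_left h4 hA)
  refine ⟨ω, ?_⟩
  set Bd := A.filter (fun x => ∃ x' ∈ A, x ≠ x' ∧ E ω x = E ω x') with hBd
  have hinj : Set.InjOn (E ω) (↑(A \ Bd) : Set X) := by
    intro x hx x' hx' he
    by_contra hne
    simp only [coe_sdiff, Set.mem_sdiff, mem_coe] at hx hx'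
    apply hx.2
    rw [hBd, Finset.mem_filter]
    exact ⟨hx.1, x', hx'.1, hne, he⟩
  have h5 : (A \ Bd).card ≤ (A.image (E ω)).card := by
    rw [← Finset.card_image_of_injOn hinj]
    exact Finset.card_le_card (Finset.image_subset_image Finset.sdiff_subset)
  have h6 : (A \ Bd).card = A.card - Bd.card := by
    rw [Finset.card_sdiff_of_subset (Finset.filter_subset _ _)]
  omega

/-- Data at the upper level: a vector valued function on positions together with a set of
differences each of which is the common difference of a three-term progression. -/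
structure TopData (n L : ℕ) (D : Finset (Fin n → ℤ)) (h : ℕ → Fin n → ℤ) : Prop where
  bound : ∀ j i, 0 ≤ h j i ∧ h j i ≤ 2
  ap : ∀ d ∈ D, ∃ j1 j2 j3 : ℕ, j1 < L ∧ j2 < L ∧ j3 < L ∧ (j2 : ℤ) - j1 = (j3 : ℤ) - j2 ∧
    h j2 - h j1 = d ∧ h j3 - h j2 = d

/-- Number of letters of one kind in the `j`-th separator. -/
def sepLen {n l : ℕ} (h : ℕ → Fin n → ℤ) (p : Fin n → Fin l) (j : ℕ) : ℤ :=
  2 * n * l + ∑ i, (h (j + 1) i - h j i) * ((p i : ℕ) : ℤ)

lemma abs_sum_le {n l : ℕ} (c : Fin n → ℤ) (hc : ∀ i, |c i| ≤ 2) (p : Fin n → Fin l) :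
    |∑ i, c i * ((p i : ℕ) : ℤ)| ≤ 2 * n * l := by
  calc |∑ i, c i * ((p i : ℕ) : ℤ)| ≤ ∑ i, |c i * ((p i : ℕ) : ℤ)| := Finset.abs_sum_le_sum_abs _ _
    _ ≤ ∑ _i : Fin n, 2 * (l : ℤ) := by
        apply Finset.sum_le_sum
        intro i _
        rw [abs_mul]
        have h1 : |((p i : ℕ) : ℤ)| ≤ l := by
          rw [abs_of_nonneg (by positivity)]
          exact_mod_cast (p i).2.le
        exact mul_le_mul (hc i) h1 (abs_nonneg _) (by norm_num)
    _ = 2 * n * l := by simp; ring

lemma sepLen_bounds {n l : ℕ} {h : ℕ → Fin n → ℤ} (hb : ∀ j i, 0 ≤ h j i ∧ h j i ≤ 2)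
    (p : Fin n → Fin l) (j : ℕ) : 0 ≤ sepLen h p j ∧ sepLen h p j ≤ 4 * n * l := by
  have := abs_sum_le (fun i => h (j + 1) i - h j i) (fun i => by
    have h1 := hb (j + 1) i
    have h2 := hb j i
    rw [abs_le]; constructor <;> linarith) p
  rw [abs_le] at this
  unfold sepLen
  constructor <;> linarith [this.1, this.2]

/-- The `j`-th separator. -/
def sep {n l : ℕ} (h : ℕ → Fin n → ℤ) (p r : Fin n → Fin l) (j : ℕ) : List Bool :=
  List.replicate (sepLen h p j).toNat true ++ List.replicate (sepLen h r j).toNat false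

/-- Concatenation of the first `j` blocks, each followed by its separator. -/
def pre {n l : ℕ} (w : List Bool) (h : ℕ → Fin n → ℤ) (p r : Fin n → Fin l) : ℕ → List Bool
  | 0 => []
  | j + 1 => pre w h p r j ++ w ++ sep h p r j

lemma cvec_sep {n l : ℕ} {h : ℕ → Fin n → ℤ} (hb : ∀ j i, 0 ≤ h j i ∧ h j i ≤ 2)
    (p r : Fin n → Fin l) (j : ℕ) : cvec (sep h p r j) = (sepLen h p j, sepLen h r j) := by
  have h1 := (sepLen_bounds hb p j).1
  have h2 := (sepLen_bounds hb r j).1
  simp [cvec, sep, List.count_append, List.count_replicate, h1, h2]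

lemma length_sep {n l : ℕ} {h : ℕ → Fin n → ℤ} (hb : ∀ j i, 0 ≤ h j i ∧ h j i ≤ 2)
    (p r : Fin n → Fin l) (j : ℕ) : (sep h p r j).length ≤ 8 * n * l := by
  have h1 := sepLen_bounds hb p j
  have h2 := sepLen_bounds hb r j
  have h3 : ((sep h p r j).length : ℤ) ≤ 8 * n * l := by
    simp only [sep, List.length_append, List.length_replicate]
    push_cast
    rw [Int.toNat_of_nonneg h1.1, Int.toNat_of_nonneg h2.1]
    linarith [h1.2, h2.2]
  exact_mod_cast h3

lemma length_pre {n l : ℕ} (w : List Bool) {h : ℕ → Fin n → ℤ}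
    (hb : ∀ j i, 0 ≤ h j i ∧ h j i ≤ 2) (p r : Fin n → Fin l) (j : ℕ) :
    (pre w h p r j).length ≤ j * (w.length + 8 * n * l) := by
  induction j with
  | zero => simp [pre]
  | succ j ih =>
    have := length_sep hb p r j
    simp only [pre, List.length_append]
    rw [add_mul, one_mul]
    omega

lemma cvec_pre {n l : ℕ} (w : List Bool) {h : ℕ → Fin n → ℤ}
    (hb : ∀ j i, 0 ≤ h j i ∧ h j i ≤ 2) (p r : Fin n → Fin l) (j : ℕ) :
    cvec (pre w h p r j) =
      (j * ((cvec w).1 + 2 * n * l) + ∑ i, (h j i - h 0 i) * ((p i : ℕ) : ℤ),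
        j * ((cvec w).2 + 2 * n * l) + ∑ i, (h j i - h 0 i) * ((r i : ℕ) : ℤ)) := by
  induction j with
  | zero => simp [pre, cvec_nil]; rfl
  | succ j ih =>
    have e1 : ∀ q : Fin n → Fin l, ∑ i, (h (j + 1) i - h 0 i) * ((q i : ℕ) : ℤ)
        = ∑ i, (h j i - h 0 i) * ((q i : ℕ) : ℤ) + ∑ i, (h (j + 1) i - h j i) * ((q i : ℕ) : ℤ) := by
      intro q
      rw [← Finset.sum_add_distrib]
      apply Finset.sum_congr rfl
      intro i _; ring
    simp only [pre]
    rw [cvec_append, cvec_append, ih, cvec_sep hb, e1, e1]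
    ext
    · simp only [Prod.fst_add, sepLen]; push_cast; ring
    · simp only [Prod.snd_add, sepLen]; push_cast; ring

lemma pre_prefix {n l : ℕ} (w : List Bool) (h : ℕ → Fin n → ℤ) (p r : Fin n → Fin l)
    {j k : ℕ} (hjk : j ≤ k) : pre w h p r j <+: pre w h p r k := by
  induction k, hjk using Nat.le_induction with
  | base => exact List.prefix_refl _
  | succ k _ ih =>
    refine ih.trans ?_
    simp only [pre, List.append_assoc]
    exact List.prefix_append _ _

lemma pre_append_prefix {n l : ℕ} (w : List Bool) (h : ℕ → Fin n → ℤ) (p r : Fin n → Fin l)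
    {j L : ℕ} (hj : j < L) {x : List Bool} (hx : x <+: w) :
    pre w h p r j ++ x <+: pre w h p r L := by
  refine List.IsPrefix.trans ?_ (pre_prefix w h p r (Nat.succ_le_of_lt hj))
  simp only [pre, List.append_assoc]
  rw [List.prefix_append_right_inj]
  exact hx.trans (List.prefix_append _ _)

lemma step {n L : ℕ} {D : Finset (Fin n → ℤ)} {h : ℕ → Fin n → ℤ} (H : TopData n L D h)
    (w : List Bool) (F : Finset (ℤ × ℤ)) (hF : ∀ v ∈ F, v ∈ V w) (l : ℕ) (hl : 0 < l)
    (hl2 : 2 * (F.card * D.card) ≤ l ^ 2) :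
    ∃ (w' : List Bool) (F' : Finset (ℤ × ℤ)), (∀ v ∈ F', v ∈ V w') ∧
      F.card * D.card ≤ 2 * F'.card ∧ w'.length ≤ L * (w.length + 8 * n * l) := by
  classical
  choose! j1 j2 j3 hj1 hj2 hj3 hjj hd1 hd2 using H.ap
  let m : (Fin n → ℤ) → ℤ := fun d => (j2 d : ℤ) - j1 d
  let lin : (Fin n → Fin l) → (Fin n → ℤ) → ℤ := fun p d => ∑ i, d i * ((p i : ℕ) : ℤ)
  let E : (Fin n → Fin l) × (Fin n → Fin l) → (ℤ × ℤ) × (Fin n → ℤ) → ℤ × ℤ := fun ω x =>
    (m x.2 * ((cvec w).1 + 2 * n * l) + lin ω.1 x.2 + x.1.1,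
      m x.2 * ((cvec w).2 + 2 * n * l) + lin ω.2 x.2 + x.1.2)
  have : Nonempty (Fin l) := ⟨⟨0, hl⟩⟩
  have hcount : ∀ d d' : Fin n → ℤ, d ≠ d' → ∀ s : ℤ,
      (univ.filter (fun p : Fin n → Fin l => lin p d - lin p d' = s)).card * l ≤ l ^ n := by
    intro d d' hdd s
    obtain ⟨i0, hi0⟩ := Function.ne_iff.mp hdd
    have := card_sol_mul_le (ι := Fin n) (F := Fin l) (R := ℤ) (fun i => d i - d' i)
      (fun x => ((x : ℕ) : ℤ)) i0 (by
        intro a b hab
        simp only at hab
        have : ((a : ℕ) : ℤ) = ((b : ℕ) : ℤ) := mul_left_cancel₀ (sub_ne_zero.mpr hi0) hab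
        exact Fin.ext (by exact_mod_cast this)) s
    have e : ∀ p : Fin n → Fin l, lin p d - lin p d' = ∑ i, (d i - d' i) * ((p i : ℕ) : ℤ) := by
      intro p
      simp only [lin]
      rw [← Finset.sum_sub_distrib]
      apply Finset.sum_congr rfl
      intro i _; ring
    simp only [e]
    simpa using this
  obtain ⟨ω, hω⟩ := exists_large_image (F ×ˢ D) E (by
    rintro ⟨v, d⟩ hx ⟨v', d'⟩ hx' hne
    rw [Finset.card_product]
    by_cases hdd : d = d'
    · subst hdd
      have : univ.filter (fun ω => E ω (v, d) = E ω (v', d)) = ∅ := by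
        apply Finset.filter_eq_empty_iff.mpr
        intro ω _ he
        apply hne
        have h1 := congrArg Prod.fst he
        have h2 := congrArg Prod.snd he
        simp only [E] at h1 h2
        have : v = v' := Prod.ext (by linarith) (by linarith)
        rw [this]
      rw [this]; simp
    · have hsub : univ.filter (fun ω => E ω (v, d) = E ω (v', d')) ⊆
          (univ.filter (fun p : Fin n → Fin l => lin p d - lin p d' =
            (m d' - m d) * ((cvec w).1 + 2 * n * l) + (v'.1 - v.1))) ×ˢ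
          (univ.filter (fun p : Fin n → Fin l => lin p d - lin p d' =
            (m d' - m d) * ((cvec w).2 + 2 * n * l) + (v'.2 - v.2))) := by
        intro ω hω
        simp only [mem_filter, mem_univ, true_and, mem_product] at hω ⊢
        have h1 := congrArg Prod.fst hω
        have h2 := congrArg Prod.snd hω
        simp only [E] at h1 h2
        constructor
        · linarith
        · linarith
      have h1 := hcount d d' hdd ((m d' - m d) * ((cvec w).1 + 2 * n * l) + (v'.1 - v.1))
      have h2 := hcount d d' hdd ((m d' - m d) * ((cvec w).2 + 2 * n * l) + (v'.2 - v.2))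
      have h3 := Finset.card_le_card hsub
      rw [Finset.card_product] at h3
      calc (univ.filter (fun ω => E ω (v, d) = E ω (v', d'))).card * (2 * (F.card * D.card))
          ≤ (_ * _) * l ^ 2 := Nat.mul_le_mul h3 hl2
        _ = (_ * l) * (_ * l) := by ring
        _ ≤ l ^ n * l ^ n := Nat.mul_le_mul h1 h2
        _ = Fintype.card ((Fin n → Fin l) × (Fin n → Fin l)) := by simp)
  refine ⟨pre w h ω.1 ω.2 L, (F ×ˢ D).image (E ω), ?_, ?_, length_pre w H.bound _ _ L⟩
  · intro y hy
    rw [Finset.mem_image] at hy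
    obtain ⟨⟨v, d⟩, hx, rfl⟩ := hy
    rw [Finset.mem_product] at hx
    obtain ⟨hv, hd⟩ := hx
    simp only at hv hd
    obtain ⟨p, q, r, hp, hq, hr, h1, h2⟩ := hF v hv
    refine ⟨pre w h ω.1 ω.2 (j1 d) ++ p, pre w h ω.1 ω.2 (j2 d) ++ q, pre w h ω.1 ω.2 (j3 d) ++ r,
      pre_append_prefix _ _ _ _ (hj1 d hd) hp, pre_append_prefix _ _ _ _ (hj2 d hd) hq,
      pre_append_prefix _ _ _ _ (hj3 d hd) hr, ?_, ?_⟩
    · rw [cvec_append, cvec_append, cvec_pre w H.bound, cvec_pre w H.bound]
      have e : ∀ p : Fin n → Fin l, lin p d = ∑ i, (h (j2 d) i - h 0 i) * ((p i : ℕ) : ℤ)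
          - ∑ i, (h (j1 d) i - h 0 i) * ((p i : ℕ) : ℤ) := by
        intro p
        simp only [lin]
        rw [← Finset.sum_sub_distrib]
        apply Finset.sum_congr rfl
        intro i _
        have := congrFun (hd1 d hd) i
        simp only [Pi.sub_apply] at this
        rw [← this]; ring
      have h1' := congrArg Prod.fst h1
      have h1'' := congrArg Prod.snd h1
      simp only [Prod.fst_sub, Prod.snd_sub] at h1' h1''
      ext
      · simp only [E, m, e, Prod.fst_add, Prod.fst_sub, ← h1']; ring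
      · simp only [E, m, e, Prod.snd_add, Prod.snd_sub, ← h1'']; ring
    · rw [cvec_append, cvec_append, cvec_pre w H.bound, cvec_pre w H.bound]
      have e : ∀ p : Fin n → Fin l, lin p d = ∑ i, (h (j3 d) i - h 0 i) * ((p i : ℕ) : ℤ)
          - ∑ i, (h (j2 d) i - h 0 i) * ((p i : ℕ) : ℤ) := by
        intro p
        simp only [lin]
        rw [← Finset.sum_sub_distrib]
        apply Finset.sum_congr rfl
        intro i _
        have := congrFun (hd2 d hd) i
        simp only [Pi.sub_apply] at this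
        rw [← this]; ring
      have h1' := congrArg Prod.fst h2
      have h1'' := congrArg Prod.snd h2
      simp only [Prod.fst_sub, Prod.snd_sub] at h1' h1''
      have hm : m d = (j3 d : ℤ) - j2 d := hjj d hd
      ext
      · simp only [E, hm, e, Prod.fst_add, Prod.fst_sub, ← h1']; ring
      · simp only [E, hm, e, Prod.snd_add, Prod.snd_sub, ← h1'']; ring
  · rw [Finset.card_product] at hω
    exact hω

/-- Indicator vector of a set. -/
def ind {n : ℕ} (S : Finset (Fin n)) : Fin n → ℤ := fun i => if i ∈ S then 1 else 0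

/-- The upper level point set. -/
def pts (t n : ℕ) : Finset (Fin n → ℤ) :=
  ((univ : Finset (Fin n)).powersetCard t).image (fun S => 2 * ind S) ∪
    ((univ : Finset (Fin n)).powersetCard (2 * t)).image ind

lemma ind_bound {n : ℕ} (S : Finset (Fin n)) (i : Fin n) : 0 ≤ ind S i ∧ ind S i ≤ 1 := by
  unfold ind; split_ifs <;> simp

lemma pts_bound {t n : ℕ} {x : Fin n → ℤ} (hx : x ∈ pts t n) (i : Fin n) :
    0 ≤ x i ∧ x i ≤ 2 := by
  simp only [pts, mem_union, mem_image] at hx
  rcases hx with ⟨S, _, rfl⟩ | ⟨S, _, rfl⟩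
  · have := ind_bound S i
    simp only [Pi.mul_apply, Pi.ofNat_apply]
    constructor <;> linarith [this.1, this.2]
  · have := ind_bound S i
    constructor <;> linarith [this.1, this.2]

lemma card_pts_le (t n : ℕ) : (pts t n).card ≤ n.choose t + n.choose (2 * t) := by
  refine (Finset.card_union_le _ _).trans (Nat.add_le_add ?_ ?_)
  · refine Finset.card_image_le.trans ?_
    simp
  · refine Finset.card_image_le.trans ?_
    simp

/-- Linear hash of a vector. -/
def hsh {n q : ℕ} (a : Fin n → ZMod q) (x : Fin n → ℤ) : ZMod q := ∑ i, (x i : ZMod q) * a i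

lemma hsh_add {n q : ℕ} (a : Fin n → ZMod q) (x y : Fin n → ℤ) :
    hsh a (x + y) = hsh a x + hsh a y := by
  simp only [hsh, ← Finset.sum_add_distrib]
  apply Finset.sum_congr rfl
  intro i _
  simp only [Pi.add_apply]; push_cast; ring

lemma hsh_sub {n q : ℕ} (a : Fin n → ZMod q) (x y : Fin n → ℤ) :
    hsh a (x - y) = hsh a x - hsh a y := by
  simp only [hsh, ← Finset.sum_sub_distrib]
  apply Finset.sum_congr rfl
  intro i _
  simp only [Pi.sub_apply]; push_cast; ring

lemma mul_inj_of_small {q : ℕ} (hq : Odd q) (c : ℤ) (hc0 : c ≠ 0) (hc : |c| ≤ 2) :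
    Function.Injective fun t : ZMod q => (c : ZMod q) * t := by
  have h2 : IsUnit (2 : ZMod q) := by
    have := (ZMod.isUnit_iff_coprime 2 q).mpr (Nat.coprime_two_left.mpr hq)
    simpa using this
  intro a b hab
  simp only at hab
  rw [abs_le] at hc
  have hcases : c = -2 ∨ c = -1 ∨ c = 1 ∨ c = 2 := by omega
  rcases hcases with rfl | rfl | rfl | rfl
  · have : (2 : ZMod q) * a = 2 * b := by
      have h := congrArg Neg.neg hab
      push_cast at h
      simpa using h
    exact h2.mul_left_cancel this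
  · have h := congrArg Neg.neg hab
    push_cast at h
    simpa using h
  · simpa using hab
  · have : (2 : ZMod q) * a = 2 * b := by
      push_cast at hab
      exact hab
    exact h2.mul_left_cancel this

lemma card_collision {t n q : ℕ} [NeZero q] (hq : Odd q) {x x' : Fin n → ℤ} (hx : x ∈ pts t n)
    (hx' : x' ∈ pts t n) (hne : x' ≠ x) :
    (univ.filter (fun a : Fin n → ZMod q => hsh a x' = hsh a x)).card * q ≤ q ^ n := by
  obtain ⟨i0, hi0⟩ := Function.ne_iff.mp hne
  have := card_sol_mul_le (ι := Fin n) (F := ZMod q) (R := ZMod q)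
    (fun i => ((x' i - x i : ℤ) : ZMod q)) id i0 (by
      have hb := pts_bound hx i0
      have hb' := pts_bound hx' i0
      exact mul_inj_of_small hq (x' i0 - x i0) (sub_ne_zero.mpr hi0)
        (by rw [abs_le]; constructor <;> linarith [hb.1, hb.2, hb'.1, hb'.2])) 0
  have e : ∀ a : Fin n → ZMod q, hsh a x' = hsh a x ↔
      ∑ i, ((x' i - x i : ℤ) : ZMod q) * id (a i) = 0 := by
    intro a
    rw [← sub_eq_zero, ← hsh_sub]
    simp only [hsh, Pi.sub_apply, id]
  simp only [e]
  simpa [ZMod.card] using this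

/-- A point is uniquely hashed by `a`. -/
def Uniq {n q : ℕ} (t : ℕ) (a : Fin n → ZMod q) (x : Fin n → ℤ) : Prop :=
  ∀ x' ∈ pts t n, hsh a x' = hsh a x → x' = x

lemma card_not_uniq {t n q : ℕ} [NeZero q] (hq : Odd q) {x : Fin n → ℤ} (hx : x ∈ pts t n)
    [DecidablePred fun a : Fin n → ZMod q => ¬ Uniq t a x] :
    (univ.filter (fun a : Fin n → ZMod q => ¬ Uniq t a x)).card * q ≤ (pts t n).card * q ^ n := by
  classical
  have hsub : univ.filter (fun a : Fin n → ZMod q => ¬ Uniq t a x) ⊆
      ((pts t n).erase x).biUnion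
        (fun x' => univ.filter (fun a : Fin n → ZMod q => hsh a x' = hsh a x)) := by
    intro a ha
    have ha' := (Finset.mem_filter.mp ha).2
    unfold Uniq at ha'
    push Not at ha'
    obtain ⟨x', hx', he, hne⟩ := ha'
    simp only [mem_biUnion, mem_filter, mem_univ, true_and]
    exact ⟨x', Finset.mem_erase.mpr ⟨hne, hx'⟩, he⟩
  calc (univ.filter (fun a : Fin n → ZMod q => ¬ Uniq t a x)).card * q
      ≤ (∑ x' ∈ (pts t n).erase x,
          (univ.filter (fun a : Fin n → ZMod q => hsh a x' = hsh a x)).card) * q :=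
        Nat.mul_le_mul_right _ ((Finset.card_le_card hsub).trans Finset.card_biUnion_le)
    _ = ∑ x' ∈ (pts t n).erase x,
          (univ.filter (fun a : Fin n → ZMod q => hsh a x' = hsh a x)).card * q :=
        Finset.sum_mul _ _ _
    _ ≤ ∑ x' ∈ (pts t n).erase x, q ^ n := by
        apply Finset.sum_le_sum
        intro x' hx'
        exact card_collision hq hx (Finset.mem_of_mem_erase hx') (Finset.ne_of_mem_erase hx')
    _ = ((pts t n).erase x).card * q ^ n := by simp
    _ ≤ (pts t n).card * q ^ n :=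
        Nat.mul_le_mul_right _ (Finset.card_le_card (Finset.erase_subset _ _))

/-- Pairs of disjoint `t`-subsets. -/
def prs (t : ℕ) : Finset (Σ _ : Finset (Fin (3 * t)), Finset (Fin (3 * t))) :=
  ((univ : Finset (Fin (3 * t))).powersetCard t).sigma (fun S => (Sᶜ).powersetCard t)

lemma card_prs (t : ℕ) : (prs t).card = (3 * t).choose t * (2 * t).choose t := by
  rw [prs, Finset.card_sigma]
  have : ∀ S ∈ (univ : Finset (Fin (3 * t))).powersetCard t,
      ((Sᶜ).powersetCard t).card = (2 * t).choose t := by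
    intro S hS
    rw [Finset.mem_powersetCard] at hS
    rw [Finset.card_powersetCard, Finset.card_compl, hS.2, Fintype.card_fin]
    congr 1
    omega
  rw [Finset.sum_congr rfl this]
  simp

lemma mem_prs {t : ℕ} {x : Σ _ : Finset (Fin (3 * t)), Finset (Fin (3 * t))} (hx : x ∈ prs t) :
    x.1.card = t ∧ x.2.card = t ∧ Disjoint x.1 x.2 := by
  simp only [prs, mem_sigma, mem_powersetCard] at hx
  refine ⟨hx.1.2, hx.2.2, ?_⟩
  rw [Finset.disjoint_left]
  intro i h1 h2
  have := hx.2.1 h2
  rw [Finset.mem_compl] at this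
  exact this h1

lemma ind_union {n : ℕ} {S T : Finset (Fin n)} (h : Disjoint S T) :
    ind (S ∪ T) = ind S + ind T := by
  funext i
  simp only [ind, mem_union, Pi.add_apply]
  by_cases h1 : i ∈ S
  · have h2 : i ∉ T := Finset.disjoint_left.mp h h1
    simp [h1, h2]
  · by_cases h2 : i ∈ T <;> simp [h1, h2]

lemma base (t q : ℕ) (hq : Odd q) (hq6 : 6 * ((3 * t).choose t + (3 * t).choose (2 * t)) ≤ q) :
    ∃ (D : Finset (Fin (3 * t) → ℤ)) (h : ℕ → Fin (3 * t) → ℤ), TopData (3 * t) (3 * q) D h ∧
      (3 * t).choose t * (2 * t).choose t ≤ 2 * D.card := by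
  classical
  have hq0 : 0 < q := hq.pos
  have : NeZero q := ⟨hq0.ne'⟩
  let good : (Fin (3 * t) → ZMod q) → (Σ _ : Finset (Fin (3 * t)), Finset (Fin (3 * t))) → Prop :=
    fun a x => Uniq t a (2 * ind x.1) ∧ Uniq t a (ind (x.1 ∪ x.2)) ∧ Uniq t a (2 * ind x.2)
  have hmem : ∀ x ∈ prs t, (2 * ind x.1 ∈ pts t (3 * t)) ∧ (ind (x.1 ∪ x.2) ∈ pts t (3 * t)) ∧
      (2 * ind x.2 ∈ pts t (3 * t)) := by
    intro x hx
    obtain ⟨h1, h2, h3⟩ := mem_prs hx
    simp only [pts, mem_union, mem_image, mem_powersetCard]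
    refine ⟨Or.inl ⟨x.1, ⟨subset_univ _, h1⟩, rfl⟩, Or.inr ⟨x.1 ∪ x.2, ⟨subset_univ _, ?_⟩, rfl⟩,
      Or.inl ⟨x.2, ⟨subset_univ _, h2⟩, rfl⟩⟩
    rw [Finset.card_union_of_disjoint h3, h1, h2]; ring
  obtain ⟨a, ha⟩ := exists_few_bad (prs t) (fun a x => ¬ good a x) (by
    intro x hx
    obtain ⟨m1, m2, m3⟩ := hmem x hx
    have hsub : univ.filter (fun a => ¬ good a x) ⊆
        univ.filter (fun a => ¬ Uniq t a (2 * ind x.1)) ∪
        univ.filter (fun a => ¬ Uniq t a (ind (x.1 ∪ x.2))) ∪
        univ.filter (fun a => ¬ Uniq t a (2 * ind x.2)) := by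
      intro a ha
      simp only [mem_filter, mem_univ, true_and, mem_union, good] at ha ⊢
      tauto
    have c1 := card_not_uniq hq m1
    have c2 := card_not_uniq hq m2
    have c3 := card_not_uniq hq m3
    have h1 : (univ.filter (fun a => ¬ good a x)).card ≤
        (univ.filter (fun a => ¬ Uniq t a (2 * ind x.1))).card +
        (univ.filter (fun a => ¬ Uniq t a (ind (x.1 ∪ x.2)))).card +
        (univ.filter (fun a => ¬ Uniq t a (2 * ind x.2))).card :=
      (Finset.card_le_card hsub).trans ((Finset.card_union_le _ _).trans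
        (Nat.add_le_add_right (Finset.card_union_le _ _) _))
    have hP := card_pts_le t (3 * t)
    have h2 : q * (2 * (univ.filter (fun a => ¬ good a x)).card) ≤ q * q ^ (3 * t) := by
      calc q * (2 * (univ.filter (fun a => ¬ good a x)).card)
          ≤ q * (2 * ((univ.filter (fun a => ¬ Uniq t a (2 * ind x.1))).card +
        (univ.filter (fun a => ¬ Uniq t a (ind (x.1 ∪ x.2)))).card +
        (univ.filter (fun a => ¬ Uniq t a (2 * ind x.2))).card)) := by gcongr
        _ = 2 * ((univ.filter (fun a => ¬ Uniq t a (2 * ind x.1))).card * q +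
        (univ.filter (fun a => ¬ Uniq t a (ind (x.1 ∪ x.2)))).card * q +
        (univ.filter (fun a => ¬ Uniq t a (2 * ind x.2))).card * q) := by ring
        _ ≤ 2 * ((pts t (3 * t)).card * q ^ (3 * t) + (pts t (3 * t)).card * q ^ (3 * t) +
            (pts t (3 * t)).card * q ^ (3 * t)) := by gcongr
        _ = (6 * (pts t (3 * t)).card) * q ^ (3 * t) := by ring
        _ ≤ q * q ^ (3 * t) := by
            apply Nat.mul_le_mul_right
            exact (Nat.mul_le_mul_left 6 hP).trans hq6
    have h3 := Nat.le_of_mul_le_mul_left h2 hq0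
    simpa [ZMod.card] using h3)
  -- the function on positions
  let h : ℕ → Fin (3 * t) → ℤ := fun j =>
    if hx : ∃ x ∈ pts t (3 * t), hsh a x = (j : ZMod q) then hx.choose else 0
  have hh : ∀ j : ℕ, ∀ x ∈ pts t (3 * t), Uniq t a x → hsh a x = (j : ZMod q) → h j = x := by
    intro j x hx hu he
    have hex : ∃ x ∈ pts t (3 * t), hsh a x = (j : ZMod q) := ⟨x, hx, he⟩
    have : h j = hex.choose := by simp only [h]; rw [dif_pos hex]
    rw [this]
    apply hu _ hex.choose_spec.1
    rw [hex.choose_spec.2, he]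
  have hmain : ∀ x ∈ prs t, good a x → ∃ j1 j2 j3 : ℕ, j1 < 3 * q ∧ j2 < 3 * q ∧ j3 < 3 * q ∧
      (j2 : ℤ) - j1 = (j3 : ℤ) - j2 ∧
      h j2 - h j1 = ind x.2 - ind x.1 ∧ h j3 - h j2 = ind x.2 - ind x.1 := by
    intro x hx hg
    obtain ⟨m1, m2, m3⟩ := hmem x hx
    obtain ⟨u1, u2, u3⟩ := hg
    obtain ⟨_, _, hdisj⟩ := mem_prs hx
    have hun := ind_union hdisj
    set j1 : ℕ := (hsh a (2 * ind x.1)).val with hj1
    set m : ℕ := (hsh a (ind x.2 - ind x.1)).val with hm
    have lj1 : j1 < q := ZMod.val_lt _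
    have lm : m < q := ZMod.val_lt _
    have e1 : hsh a (2 * ind x.1) = (j1 : ZMod q) := by rw [hj1]; simp
    have em : hsh a (ind x.2 - ind x.1) = (m : ZMod q) := by rw [hm]; simp
    have e2 : hsh a (ind (x.1 ∪ x.2)) = ((j1 + m : ℕ) : ZMod q) := by
      push_cast
      rw [← e1, ← em, ← hsh_add]
      congr 1
      rw [hun]; ring
    have e3 : hsh a (2 * ind x.2) = ((j1 + 2 * m : ℕ) : ZMod q) := by
      have : hsh a (2 * ind x.2) = hsh a (2 * ind x.1) + hsh a (ind x.2 - ind x.1)
          + hsh a (ind x.2 - ind x.1) := by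
        rw [← hsh_add, ← hsh_add]; congr 1; ring
      rw [this, e1, em]; push_cast; ring
    have g1 := hh j1 _ m1 u1 e1
    have g2 := hh (j1 + m) _ m2 u2 e2
    have g3 := hh (j1 + 2 * m) _ m3 u3 e3
    refine ⟨j1, j1 + m, j1 + 2 * m, by omega, by omega, by omega, by push_cast; ring, ?_, ?_⟩
    · rw [g1, g2, hun]; ring
    · rw [g2, g3, hun]; ring
  refine ⟨((prs t).filter (fun x => good a x)).image (fun x => ind x.2 - ind x.1), h, ⟨?_, ?_⟩, ?_⟩
  · intro j i
    simp only [h]
    split_ifs with hx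
    · exact pts_bound hx.choose_spec.1 i
    · simp
  · intro d hd
    simp only [mem_image, mem_filter] at hd
    obtain ⟨x, ⟨hx, hg⟩, rfl⟩ := hd
    exact hmain x hx hg
  · have hinj : Set.InjOn (fun x : (Σ _ : Finset (Fin (3 * t)), Finset (Fin (3 * t))) =>
        ind x.2 - ind x.1) (↑((prs t).filter (fun x => good a x)) : Set _) := by
      rintro ⟨S, T⟩ hx ⟨S', T'⟩ hx' he
      simp only [coe_filter, Set.mem_ofPred_eq] at hx hx'
      have d1 := (mem_prs hx.1).2.2
      have d2 := (mem_prs hx'.1).2.2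
      simp only at d1 d2 he
      have hS : S = S' := by
        ext i
        have hi := congrFun he i
        simp only [Pi.sub_apply, ind] at hi
        by_cases a1 : i ∈ S
        · have b1 : i ∉ T := Finset.disjoint_left.mp d1 a1
          by_cases a2 : i ∈ S'
          · simp [a1, a2]
          · by_cases b2 : i ∈ T' <;> simp [a1, b1, a2, b2] at hi
        · by_cases a2 : i ∈ S'
          · have b2 : i ∉ T' := Finset.disjoint_left.mp d2 a2
            by_cases b1 : i ∈ T <;> simp [a1, b1, a2, b2] at hi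
          · simp [a1, a2]
      have hT : T = T' := by
        subst hS
        ext i
        have hi := congrFun he i
        simp only [Pi.sub_apply, ind] at hi
        have hi' : (if i ∈ T then (1 : ℤ) else 0) = if i ∈ T' then 1 else 0 := by linarith
        by_cases b1 : i ∈ T <;> by_cases b2 : i ∈ T' <;> simp [b1, b2] at hi' ⊢
      rw [hS, hT]
    rw [Finset.card_image_of_injOn hinj]
    have hsplit := Finset.card_filter_add_card_filter_not (s := prs t) (fun x => good a x)
    rw [← card_prs t]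
    omega

lemma TopData.mono {n L : ℕ} {D D' : Finset (Fin n → ℤ)} {h : ℕ → Fin n → ℤ}
    (H : TopData n L D h) (hD : D' ⊆ D) : TopData n L D' h :=
  ⟨H.bound, fun d hd => H.ap d (hD hd)⟩

/-- Iterating `step`. -/
lemma iterate {n L M : ℕ} {D : Finset (Fin n → ℤ)} {h : ℕ → Fin n → ℤ} (H : TopData n L D h)
    (hM : 0 < M) (hD : 2 * M ≤ D.card) (hML : M ≤ (2 * L) ^ 2) (s : ℕ) :
    ∃ (w : List Bool) (F : Finset (ℤ × ℤ)), (∀ v ∈ F, v ∈ V w) ∧ F.card = M ^ s ∧
      w.length ≤ (16 * n * M) * (2 * L) ^ s := by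
  obtain ⟨D', hD', hcard⟩ := Finset.exists_subset_card_eq hD
  have H' := H.mono hD'
  have hL : 0 < L := by
    have hpos : 0 < D'.card := by omega
    obtain ⟨d, hd⟩ := Finset.card_pos.mp hpos
    obtain ⟨j1, j2, j3, h1, _⟩ := H'.ap d hd
    omega
  induction s with
  | zero =>
    refine ⟨[], {0}, ?_, by simp, by simp⟩
    intro v hv
    rw [Finset.mem_singleton] at hv
    subst hv
    exact ⟨[], [], [], by simp, by simp, by simp, by simp, by simp⟩
  | succ s ih =>
    obtain ⟨w, F, hF, hFc, hw⟩ := ih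
    have hl : 0 < 2 * M * (2 * L) ^ s := by positivity
    have hpw : M ^ s ≤ ((2 * L) ^ s) ^ 2 := by
      rw [← pow_mul, mul_comm s 2, pow_mul]
      exact Nat.pow_le_pow_left hML s
    have hl2 : 2 * (F.card * D'.card) ≤ (2 * M * (2 * L) ^ s) ^ 2 := by
      rw [hFc, hcard]
      calc 2 * (M ^ s * (2 * M)) = 4 * M * M ^ s := by ring
        _ ≤ 4 * M * ((2 * L) ^ s) ^ 2 := by gcongr
        _ ≤ 4 * (M * M) * ((2 * L) ^ s) ^ 2 := by
            gcongr
            exact Nat.le_mul_of_pos_left M hM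
        _ = (2 * M * (2 * L) ^ s) ^ 2 := by ring
    obtain ⟨w', F', hF', hc', hw'⟩ := step H' w F hF _ hl hl2
    rw [hFc, hcard] at hc'
    have hc'' : M ^ (s + 1) ≤ F'.card := by
      rw [pow_succ]
      have : M ^ s * (2 * M) = 2 * (M ^ s * M) := by ring
      omega
    obtain ⟨F'', hF'', hcard''⟩ := Finset.exists_subset_card_eq hc''
    refine ⟨w', F'', fun v hv => hF' v (hF'' hv), hcard'', ?_⟩
    calc w'.length ≤ L * (w.length + 8 * n * (2 * M * (2 * L) ^ s)) := hw'
      _ ≤ L * ((16 * n * M) * (2 * L) ^ s + 8 * n * (2 * M * (2 * L) ^ s)) := by gcongr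
      _ = (16 * n * M) * (2 * L) ^ (s + 1) := by ring

lemma choose_three_mul_le (t : ℕ) : (3 * t).choose t * 4 ^ t ≤ 27 ^ t := by
  have h := add_pow (1 : ℕ) 2 (3 * t)
  simp only [Nat.cast_id] at h
  have hmem : t ∈ Finset.range (3 * t + 1) := by
    rw [Finset.mem_range]; omega
  have h1 : 1 ^ t * 2 ^ (3 * t - t) * (3 * t).choose t ≤
      ∑ m ∈ Finset.range (3 * t + 1), 1 ^ m * 2 ^ (3 * t - m) * (3 * t).choose m :=
    Finset.single_le_sum (f := fun m => 1 ^ m * 2 ^ (3 * t - m) * (3 * t).choose m)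
      (fun i _ => Nat.zero_le _) hmem
  rw [← h] at h1
  have e1 : 3 * t - t = 2 * t := by omega
  rw [e1, one_pow, one_mul, pow_mul, pow_mul] at h1
  norm_num at h1
  rw [mul_comm]
  exact h1

/-- If the upper level is efficient enough, the exponent `α` is beaten. -/
lemma final_of_top {n L M : ℕ} {D : Finset (Fin n → ℤ)} {h : ℕ → Fin n → ℤ}
    (H : TopData n L D h) (hD : 2 * M ≤ D.card) (hML : M ≤ (2 * L) ^ 2) (hL : 0 < L)
    (α : ℝ) (hα : 0 ≤ α) (hlt : ((2 * L : ℕ) : ℝ) ^ α < M) (C : ℝ) :
    ∃ w : List Bool, C * (w.length : ℝ) ^ α < numSquareClasses w := by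
  have hLr : (1 : ℝ) ≤ ((2 * L : ℕ) : ℝ) := by
    have : 1 ≤ 2 * L := by omega
    exact_mod_cast this
  have hLα : (1 : ℝ) ≤ ((2 * L : ℕ) : ℝ) ^ α := Real.one_le_rpow hLr hα
  have hMr : (0 : ℝ) < M := lt_of_lt_of_le zero_lt_one (hLα.trans hlt.le)
  have hM : 0 < M := by exact_mod_cast hMr
  set c : ℝ := ((16 * n * M : ℕ) : ℝ) ^ α with hc
  have hc0 : 0 ≤ c := Real.rpow_nonneg (Nat.cast_nonneg _) _
  set β : ℝ := ((2 * L : ℕ) : ℝ) ^ α with hβ
  have hβ0 : 0 < β := lt_of_lt_of_le zero_lt_one hLα
  have hρ : 1 < (M : ℝ) / β := by rw [lt_div_iff₀ hβ0, one_mul]; exact hlt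
  obtain ⟨s, hs⟩ := pow_unbounded_of_one_lt (2 * |C| * c + 1) hρ
  obtain ⟨w, F, hF, hFc, hw⟩ := iterate H hM hD hML s
  refine ⟨w, ?_⟩
  have h1 := card_le_classes w F hF
  rw [hFc] at h1
  have h2 : (M : ℝ) ^ s ≤ 2 * (numSquareClasses w : ℝ) + 1 := by exact_mod_cast h1
  have hβs : (1 : ℝ) ≤ β ^ s := one_le_pow₀ hLα
  have h3 : (2 * |C| * c + 1) * β ^ s < (M : ℝ) ^ s := by
    rw [div_pow] at hs
    rwa [lt_div_iff₀ (by positivity)] at hs
  have h4 : (w.length : ℝ) ^ α ≤ c * β ^ s := by
    calc (w.length : ℝ) ^ α ≤ (((16 * n * M) * (2 * L) ^ s : ℕ) : ℝ) ^ α := by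
          apply Real.rpow_le_rpow (Nat.cast_nonneg _) _ hα
          exact_mod_cast hw
      _ = c * β ^ s := by
          rw [Nat.cast_mul, Real.mul_rpow (Nat.cast_nonneg _) (Nat.cast_nonneg _), hc, hβ]
          congr 1
          rw [Nat.cast_pow, ← Real.rpow_natCast, ← Real.rpow_mul (Nat.cast_nonneg _),
            mul_comm (s : ℝ) α, Real.rpow_mul (Nat.cast_nonneg _), Real.rpow_natCast]
  have h5 : C * (w.length : ℝ) ^ α ≤ |C| * (c * β ^ s) := by
    calc C * (w.length : ℝ) ^ α ≤ |C| * (w.length : ℝ) ^ α := by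
          apply mul_le_mul_of_nonneg_right (le_abs_self C)
          exact Real.rpow_nonneg (Nat.cast_nonneg _) _
      _ ≤ |C| * (c * β ^ s) := mul_le_mul_of_nonneg_left h4 (abs_nonneg C)
  have h6 : (2 * |C| * c + 1) * β ^ s = 2 * (|C| * (c * β ^ s)) + β ^ s := by ring
  rw [h6] at h3
  linarith

/-- Choice of parameters. -/
lemma exists_param (α : ℝ) (hα1 : 1 ≤ α) (hα : α < Real.log 27 / Real.log (27 / 4)) :
    ∃ t : ℕ, 0 < t ∧ ((2 * (3 * (12 * (3 * t).choose t + 1)) : ℕ) : ℝ) ^ α <
      (((3 * t).choose t * (2 * t).choose t / 4 : ℕ) : ℝ) := by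
  set ρ : ℝ := 4 / (27 / 4 : ℝ) ^ (α - 1) with hρdef
  have hlog : 0 < Real.log (27 / 4) := Real.log_pos (by norm_num)
  have hpos : (0 : ℝ) < (27 / 4 : ℝ) ^ (α - 1) := Real.rpow_pos_of_pos (by norm_num) _
  have hρ : 1 < ρ := by
    rw [hρdef, lt_div_iff₀ hpos, one_mul]
    rw [lt_div_iff₀ hlog] at hα
    have h1 : (α - 1) * Real.log (27 / 4) < Real.log 4 := by
      have : Real.log 27 = Real.log (27 / 4) + Real.log 4 := by
        rw [← Real.log_mul (by norm_num) (by norm_num)]; norm_num
      linarith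
    have h2 := Real.exp_lt_exp.mpr h1
    rw [Real.exp_log (by norm_num)] at h2
    rwa [Real.rpow_def_of_pos (by norm_num), mul_comm]
  set K : ℝ := 16 * (78 : ℝ) ^ α with hK
  have hK0 : 0 < K := by positivity
  have hlim := tendsto_pow_const_div_const_pow_of_one_lt 1 hρ
  have hev := (hlim.eventually (gt_mem_nhds (show (0 : ℝ) < 1 / K by positivity))).and
    (Filter.eventually_ge_atTop 2)
  obtain ⟨t, ht, ht2⟩ := hev.exists
  have ht0 : 0 < t := by omega
  refine ⟨t, ht0, ?_⟩
  set A := (3 * t).choose t with hA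
  set B := (2 * t).choose t with hB
  have hρt : 0 < ρ ^ t := by positivity
  have h1 : K * t < ρ ^ t := by
    rw [pow_one, div_lt_div_iff₀ hρt hK0] at ht
    linarith
  have hApos : 0 < A := Nat.choose_pos (by omega)
  have hBpos : 0 < B := Nat.choose_pos (by omega)
  -- lower bound for B
  have hBlow : (4 : ℝ) ^ t ≤ 2 * t * B := by
    have := Nat.four_pow_le_two_mul_self_mul_centralBinom t ht0
    rw [Nat.centralBinom_eq_two_mul_choose] at this
    exact_mod_cast this
  -- upper bound for A
  have hAup : (A : ℝ) ≤ (27 / 4 : ℝ) ^ t := by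
    have := choose_three_mul_le t
    rw [div_pow, le_div_iff₀ (by positivity)]
    exact_mod_cast this
  have hA1 : (1 : ℝ) ≤ A := by exact_mod_cast hApos
  have hA0 : (0 : ℝ) < A := by linarith
  -- main inequality: 8 * 78^α * A^(α-1) < B
  have h2 : 8 * (78 : ℝ) ^ α * (A : ℝ) ^ (α - 1) < B := by
    have e1 : (A : ℝ) ^ (α - 1) ≤ ((27 / 4 : ℝ) ^ (α - 1)) ^ t := by
      calc (A : ℝ) ^ (α - 1) ≤ ((27 / 4 : ℝ) ^ t) ^ (α - 1) :=
            Real.rpow_le_rpow hA0.le hAup (by linarith)
        _ = ((27 / 4 : ℝ) ^ (α - 1)) ^ t := by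
            rw [← Real.rpow_natCast, ← Real.rpow_mul (by norm_num), mul_comm,
              Real.rpow_mul (by norm_num), Real.rpow_natCast]
    have e2 : ρ ^ t = (4 : ℝ) ^ t / ((27 / 4 : ℝ) ^ (α - 1)) ^ t := by
      rw [hρdef, div_pow]
    rw [e2, lt_div_iff₀ (by positivity)] at h1
    have e3 : K * t * ((27 / 4 : ℝ) ^ (α - 1)) ^ t < 2 * t * B := lt_of_lt_of_le h1 hBlow
    have htr : (0 : ℝ) < t := by exact_mod_cast ht0
    have e4 : 8 * (78 : ℝ) ^ α * ((27 / 4 : ℝ) ^ (α - 1)) ^ t < B := by
      have e5 : (2 * t) * (8 * (78 : ℝ) ^ α * ((27 / 4 : ℝ) ^ (α - 1)) ^ t) < (2 * t) * B := by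
        calc (2 * t) * (8 * (78 : ℝ) ^ α * ((27 / 4 : ℝ) ^ (α - 1)) ^ t)
            = K * t * ((27 / 4 : ℝ) ^ (α - 1)) ^ t := by rw [hK]; ring
          _ < 2 * t * B := e3
      exact lt_of_mul_lt_mul_left e5 (by positivity)
    calc 8 * (78 : ℝ) ^ α * (A : ℝ) ^ (α - 1)
        ≤ 8 * (78 : ℝ) ^ α * ((27 / 4 : ℝ) ^ (α - 1)) ^ t := by gcongr
      _ < B := e4
  have h3 : ((2 * (3 * (12 * A + 1)) : ℕ) : ℝ) ^ α ≤ (78 : ℝ) ^ α * (A : ℝ) ^ α := by
    rw [← Real.mul_rpow (by norm_num) hA0.le]
    apply Real.rpow_le_rpow (Nat.cast_nonneg _) _ (by linarith)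
    push_cast
    linarith
  have h4 : (78 : ℝ) ^ α * (A : ℝ) ^ α < A * B / 8 := by
    have e1 : (A : ℝ) ^ α = A * (A : ℝ) ^ (α - 1) := by
      rw [← Real.rpow_one_add' hA0.le (by linarith)]
      congr 1; ring
    rw [e1]
    have : (78 : ℝ) ^ α * (A * (A : ℝ) ^ (α - 1)) = A / 8 * (8 * (78 : ℝ) ^ α * (A : ℝ) ^ (α - 1)) := by
      ring
    rw [this]
    calc (A : ℝ) / 8 * (8 * (78 : ℝ) ^ α * (A : ℝ) ^ (α - 1)) < (A : ℝ) / 8 * B := by
          apply mul_lt_mul_of_pos_left h2 (by positivity)
      _ = A * B / 8 := by ring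
  -- natural division
  have h5 : (1 : ℝ) ≤ (78 : ℝ) ^ α * (A : ℝ) ^ α :=
    one_le_mul_of_one_le_of_one_le (Real.one_le_rpow (by norm_num) (by linarith))
      (Real.one_le_rpow hA1 (by linarith))
  have h6 : 8 < A * B := by
    have : (8 : ℝ) < A * B := by linarith
    exact_mod_cast this
  have h7 : A * B < 8 * (A * B / 4) := by omega
  have h8 : (A * B : ℝ) / 8 < ((A * B / 4 : ℕ) : ℝ) := by
    rw [div_lt_iff₀ (by norm_num)]
    have : ((A * B : ℕ) : ℝ) < ((8 * (A * B / 4) : ℕ) : ℝ) := by exact_mod_cast h7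
    push_cast at this
    linarith
  linarith

/-- The main theorem; restated in the hand-in file. -/
theorem main_binary (α : ℝ) (hα : α < Real.log 27 / Real.log (27 / 4)) (C : ℝ) :
    ∃ w : List Bool, C * (w.length : ℝ) ^ α < numSquareClasses w := by
  -- reduce to `1 ≤ α`
  have hone : (1 : ℝ) < Real.log 27 / Real.log (27 / 4) := by
    rw [lt_div_iff₀ (Real.log_pos (by norm_num)), one_mul]
    exact Real.log_lt_log (by norm_num) (by norm_num)
  set a : ℝ := max α 1 with ha
  have ha1 : 1 ≤ a := le_max_right _ _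
  have hα' : a < Real.log 27 / Real.log (27 / 4) := max_lt hα hone
  obtain ⟨t, ht, hlt⟩ := exists_param a ha1 hα'
  have hsymm : (3 * t).choose (2 * t) = (3 * t).choose t := by
    apply Nat.choose_symm_of_eq_add; ring
  obtain ⟨D, h, H, hD⟩ := base t (12 * (3 * t).choose t + 1)
    (by exact ⟨6 * (3 * t).choose t, by ring⟩) (by rw [hsymm]; omega)
  have hBA : (2 * t).choose t ≤ (3 * t).choose t := Nat.choose_le_choose t (by omega)
  have hML : (3 * t).choose t * (2 * t).choose t / 4 ≤
      (2 * (3 * (12 * (3 * t).choose t + 1))) ^ 2 := by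
    calc (3 * t).choose t * (2 * t).choose t / 4 ≤ (3 * t).choose t * (2 * t).choose t :=
          Nat.div_le_self _ _
      _ ≤ (3 * t).choose t * (3 * t).choose t := Nat.mul_le_mul_left _ hBA
      _ ≤ (2 * (3 * (12 * (3 * t).choose t + 1))) * (2 * (3 * (12 * (3 * t).choose t + 1))) :=
          Nat.mul_le_mul (by omega) (by omega)
      _ = (2 * (3 * (12 * (3 * t).choose t + 1))) ^ 2 := by ring
  obtain ⟨w, hw⟩ := final_of_top H (M := (3 * t).choose t * (2 * t).choose t / 4) (by omega)
    hML (by positivity) a (by linarith) hlt (|C|)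
  refine ⟨w, lt_of_le_of_lt ?_ hw⟩
  have hnn : (0 : ℝ) ≤ (w.length : ℝ) ^ a := Real.rpow_nonneg (Nat.cast_nonneg _) _
  rcases Nat.eq_zero_or_pos w.length with h0 | hpos
  · exfalso
    have hw0 : w = [] := List.length_eq_zero_iff.mp h0
    subst hw0
    have hN : numSquareClasses ([] : List Bool) = 0 := by
      rw [numSquareClasses, Set.ncard_eq_zero (finite_classes _)]
      rw [Set.eq_empty_iff_forall_notMem]
      rintro f ⟨s, hs, hsq, _⟩
      exact hsq.1 (List.infix_nil.mp hs)
    rw [hN] at hw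
    have : (0 : ℝ) ≤ |C| * (([] : List Bool).length : ℝ) ^ a :=
      mul_nonneg (abs_nonneg C) (Real.rpow_nonneg (Nat.cast_nonneg _) _)
    simp only [Nat.cast_zero] at hw
    linarith
  · have h1 : (1 : ℝ) ≤ (w.length : ℝ) := by exact_mod_cast hpos
    calc C * (w.length : ℝ) ^ α ≤ |C| * (w.length : ℝ) ^ α := by
          apply mul_le_mul_of_nonneg_right (le_abs_self C)
          exact Real.rpow_nonneg (Nat.cast_nonneg _) _
      _ ≤ |C| * (w.length : ℝ) ^ a := by
          apply mul_le_mul_of_nonneg_left _ (abs_nonneg C)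
          exact Real.rpow_le_rpow_of_exponent_le h1 (le_max_left _ _)

end Pool.Agent.Lib.MP_72cd34_co
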